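import Pool.Agent.Lib.MP_09cbbd_mp_h27.PsMain

/-!
# A stable first-order transition of hard spheres in a periodic field

For every dimension `d ≥ 2`, every radius `a > 0` and every `δ > 0` there is a connected open
periodic region `X₀ ⊆ ℝ^d`, whose complement has density at most `δ`, such that the gas of hard
spheres of radius `a` has a first-order transition in every periodic field whose Boltzmann factor
`w` has values in `[0, 1]` and is close in mean to the indicator of `X₀`. Among these fields there
is one with a potential that is a non-negative trigonometric polynomial.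
-/

set_option autoImplicit false

open MeasureTheory Pool.Agent.HardSpheresInField

namespace Pool.Agent.Results.MP_09cbbd_mp.StableTransition

theorem result : ∀ d : ℕ, 2 ≤ d → ∀ a δ : ℝ, 0 < a → 0 < δ →
    ∃ (s η : ℝ) (X₀ : Set (Fin d → ℝ)), 0 < s ∧ 0 < η ∧ IsOpen X₀ ∧ IsConnected X₀ ∧
      Periodic s (fun x => x ∈ X₀) ∧
      volume (Box d s \ X₀) ≤ ENNReal.ofReal (δ * s ^ d) ∧
      (∀ w : (Fin d → ℝ) → ℝ, Measurable w → Periodic s w → (∀ x, 0 ≤ w x ∧ w x ≤ 1) →
        ∫ x in Box d s, |w x - X₀.indicator 1 x| < η → Transition d a w) ∧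
      ∃ (Q : MvPolynomial (Fin d ⊕ Fin d) ℝ) (U : (Fin d → ℝ) → ℝ),
        (∀ x, U x = MvPolynomial.eval (Sum.elim (fun k => Real.cos (2 * Real.pi * x k / s))
          fun k => Real.sin (2 * Real.pi * x k / s)) Q) ∧ (∀ x, 0 ≤ U x) ∧
        volume {x ∈ Box d s | δ < U x} ≤ ENNReal.ofReal (δ * s ^ d) ∧
        ∫ x in Box d s, |Real.exp (-(U x)) - X₀.indicator 1 x| < η :=
  fun d hd a δ ha hδ => Pool.Agent.StableGas.main d hd a δ ha hδ

end Pool.Agent.Results.MP_09cbbd_mp.StableTransition
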